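import Pool.Agent.Helper57.Env.Stmts

set_option autoImplicit false

/-!
# MP_07d5fa_co, packet E: counting clean triples with an exceptional point or an unbounded
interval
-/

namespace Pool.Agent.Helper89.Env

open Set

/-- Counting through codes. -/
lemma ncard_le_of_code {α β : Type*} (A : Set α) (S : Finset β) (P : α → β → Prop)
    (h1 : ∀ x ∈ A, ∃ z ∈ S, P x z) (h2 : ∀ x ∈ A, ∀ y ∈ A, ∀ z, P x z → P y z → x = y) :
    A.ncard ≤ S.card := by
  classical
  rcases A.eq_empty_or_nonempty with rfl | ⟨x0, hx0⟩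
  · simp
  · obtain ⟨z0, -, -⟩ := h1 x0 hx0
    have h3 : ∀ x, ∃ z, x ∈ A → z ∈ S ∧ P x z := by
      intro x
      by_cases hx : x ∈ A
      · obtain ⟨z, hz, hz'⟩ := h1 x hx
        exact ⟨z, fun _ => ⟨hz, hz'⟩⟩
      · exact ⟨z0, fun h => absurd h hx⟩
    choose g hg using h3
    rw [← Set.ncard_coe_finset]
    apply Set.ncard_le_ncard_of_injOn g (fun x hx => (hg x hx).1) _ S.finite_toSet
    intro x hx y hy hxy
    exact h2 x hx y hy (g x) (hg x hx).2 (by rw [hxy]; exact (hg y hy).2)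

theorem stmtClean1 : Pool.Agent.Helper57.Env.StmtClean1 := by
  classical
  intro ι _ s t F R
  set AI : Set (Finset ι) := {T | T ⊆ R ∧ T.card = 3 ∧ Pool.Agent.Helper57.Env.CleanI F R T}
    with hAI
  set AU : Set (Finset ι) := {T | T ⊆ R ∧ T.card = 3 ∧ Pool.Agent.Helper57.Env.CleanU F R T}
    with hAU
  have hsub : {T : Finset ι | T ⊆ R ∧ T.card = 3 ∧ (Pool.Agent.Helper57.Env.CleanI F R T ∨
      Pool.Agent.Helper57.Env.CleanU F R T)} ⊆ AI ∪ AU := by
    rintro T ⟨h1, h2, h3 | h3⟩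
    · exact Or.inl ⟨h1, h2, h3⟩
    · exact Or.inr ⟨h1, h2, h3⟩
  have hI : AI.ncard ≤ t * R.card ^ 2 := by
    set S : Finset (Σ _ : ι × ι, ℝ × ℝ) := (R ×ˢ R).sigma (fun ab => F.P ab.1 ab.2) with hS
    have hScard : S.card ≤ t * R.card ^ 2 := by
      rw [hS, Finset.card_sigma]
      calc ∑ ab ∈ R ×ˢ R, (F.P ab.1 ab.2).card ≤ ∑ _ab ∈ R ×ˢ R, t :=
            Finset.sum_le_sum (fun ab _ => F.P_card _ _)
        _ = t * R.card ^ 2 := by
            rw [Finset.sum_const, Finset.card_product, smul_eq_mul]; ring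
    refine le_trans (ncard_le_of_code AI S (fun T z => z.1.1 ∈ T ∧
      z.2 ∈ Pool.Agent.Helper57.Env.TP F T ∧ Pool.Agent.Helper57.Env.Above F R T z.2) ?_ ?_) hScard
    · rintro T ⟨hTR, -, u, hu, ⟨a, ha, b, hb, -, huP⟩, hab⟩
      refine ⟨⟨(a, b), u⟩, ?_, ha, hu, hab⟩
      rw [hS, Finset.mem_sigma, Finset.mem_product]
      exact ⟨⟨hTR ha, hTR hb⟩, huP⟩
    · rintro T ⟨hTR, hT3, -⟩ T' ⟨hTR', hT3', -⟩ ⟨⟨a, b⟩, u⟩ ⟨ha, hu, hab⟩ ⟨ha', hu', hab'⟩
      simp only at ha hu hab ha' hu' hab'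
      have h1 : T' ⊆ T := by
        intro c hc
        by_contra hcT
        have h2 := hab c (hTR' hc) hcT a ha
        have h3 := hu' a ha' c hc
        exact absurd h3 (ne_of_lt h2)
      exact (Finset.eq_of_subset_of_card_le h1 (by rw [hT3, hT3'])).symm
  have hU : AU.ncard ≤ 2 * t * R.card ^ 2 := by
    set S : Finset (Σ ab : ι × ι, Fin (F.m ab.1 ab.2) × Bool) :=
      (R ×ˢ R).sigma (fun ab => Finset.univ) with hS
    have hScard : S.card ≤ 2 * t * R.card ^ 2 := by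
      rw [hS, Finset.card_sigma]
      calc ∑ ab ∈ R ×ˢ R, (Finset.univ : Finset (Fin (F.m ab.1 ab.2) × Bool)).card
          ≤ ∑ _ab ∈ R ×ˢ R, (t * 2) := by
            apply Finset.sum_le_sum
            intro ab _
            rw [Finset.card_univ, Fintype.card_prod, Fintype.card_fin, Fintype.card_bool]
            exact Nat.mul_le_mul_right _ (F.m_le _ _)
        _ = 2 * t * R.card ^ 2 := by
            rw [Finset.sum_const, Finset.card_product, smul_eq_mul]; ring
    refine le_trans (ncard_le_of_code AU S (fun T z => ∃ c,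
      Pool.Agent.Helper57.Env.Is3 T z.1.1 z.1.2 c ∧ ∃ τ : ℝ, ∀ σ, τ < σ →
        F.f c (Pool.Agent.Helper57.Env.oc F z.1.1 z.1.2 z.2 σ) <
            F.f z.1.1 (Pool.Agent.Helper57.Env.oc F z.1.1 z.1.2 z.2 σ) ∧
          ∀ l ∈ R, l ∉ T → F.f z.1.1 (Pool.Agent.Helper57.Env.oc F z.1.1 z.1.2 z.2 σ) <
            F.f l (Pool.Agent.Helper57.Env.oc F z.1.1 z.1.2 z.2 σ)) ?_ ?_) hScard
    · rintro T ⟨hTR, -, a, b, c, h3, o, τ, hτ⟩
      refine ⟨⟨(a, b), o⟩, ?_, c, h3, τ, hτ⟩
      rw [hS, Finset.mem_sigma, Finset.mem_product]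
      exact ⟨⟨hTR h3.1, hTR h3.2.1⟩, Finset.mem_univ _⟩
    · rintro T ⟨hTR, hT3, -⟩ T' ⟨hTR', hT3', -⟩ ⟨⟨a, b⟩, o⟩ ⟨c, h3, τ, hτ⟩ ⟨c', h3', τ', hτ'⟩
      simp only at h3 hτ h3' hτ'
      obtain ⟨ha, hb, -, -, -, -⟩ := h3
      obtain ⟨ha', hb', hc', hab, hac, hbc⟩ := h3'
      have h4 : ({a, b, c'} : Finset ι) = T' := by
        apply Finset.eq_of_subset_of_card_le
        · intro x hx
          simp only [Finset.mem_insert, Finset.mem_singleton] at hx
          rcases hx with rfl | rfl | rfl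
          · exact ha'
          · exact hb'
          · exact hc'
        · rw [hT3', Finset.card_eq_three.2 ⟨a, b, c', hab, hac, hbc, rfl⟩]
      have h1 : T' ⊆ T := by
        intro x hx
        by_contra hxT
        have hxc : x = c' := by
          rw [← h4] at hx
          simp only [Finset.mem_insert, Finset.mem_singleton] at hx
          rcases hx with rfl | rfl | rfl
          · exact absurd ha hxT
          · exact absurd hb hxT
          · rfl
        subst hxc
        have h5 := (hτ (max τ τ' + 1) (by have := le_max_left τ τ'; linarith)).2 x (hTR' hx) hxT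
        have h6 := (hτ' (max τ τ' + 1) (by have := le_max_right τ τ'; linarith)).1
        exact lt_asymm h5 h6
      exact (Finset.eq_of_subset_of_card_le h1 (by rw [hT3, hT3'])).symm
  have hfin : (AI ∪ AU).Finite := by
    apply Set.Finite.subset (R.powerset.finite_toSet)
    rintro T (⟨h, -⟩ | ⟨h, -⟩) <;> exact Finset.mem_coe.2 (Finset.mem_powerset.2 h)
  calc _ ≤ (AI ∪ AU).ncard := Set.ncard_le_ncard hsub hfin
    _ ≤ AI.ncard + AU.ncard := Set.ncard_union_le _ _
    _ ≤ t * R.card ^ 2 + 2 * t * R.card ^ 2 := add_le_add hI hU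
    _ = 3 * t * R.card ^ 2 := by ring

end Pool.Agent.Helper89.Env
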