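import Pool.Agent.Helper57.Env.Stmts

set_option autoImplicit false

/-!
# MP_07d5fa_co, packet B: two disjoint continua cannot both enclose each other
-/

namespace Pool.Agent.Helper89.Env

open Set Topology

lemma closure_comp_subset {K : Set (ℝ × ℝ)} (hK : IsClosed K) (p : ℝ × ℝ) :
    closure (connectedComponentIn Kᶜ p) ∩ Kᶜ ⊆ connectedComponentIn Kᶜ p := by
  rintro z ⟨hz, hzK⟩
  have h1 : IsOpen (connectedComponentIn Kᶜ z) := hK.isOpen_compl.connectedComponentIn
  obtain ⟨w, hw1, hw2⟩ := mem_closure_iff.1 hz _ h1 (mem_connectedComponentIn hzK)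
  have e1 : connectedComponentIn Kᶜ z = connectedComponentIn Kᶜ w := connectedComponentIn_eq hw1
  have e2 : connectedComponentIn Kᶜ p = connectedComponentIn Kᶜ w := connectedComponentIn_eq hw2
  rw [e2, ← e1]
  exact mem_connectedComponentIn hzK

theorem stmtNest : Pool.Agent.Helper57.Env.StmtNest := by
  rintro K K' p hKc hKn hK'c hK'n hdisj hp hp' ⟨h1, h2⟩
  have hKcl := hKc.isClosed
  have hK'cl := hK'c.isClosed
  have hUU' : connectedComponentIn Kᶜ p ⊆ connectedComponentIn K'ᶜ p :=
    isPreconnected_connectedComponentIn.subset_connectedComponentIn (mem_connectedComponentIn hp)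
      (fun z hz hz' => Set.disjoint_left.1 h1 hz' hz)
  have hU'U : connectedComponentIn K'ᶜ p ⊆ connectedComponentIn Kᶜ p :=
    isPreconnected_connectedComponentIn.subset_connectedComponentIn (mem_connectedComponentIn hp')
      (fun z hz hz' => Set.disjoint_left.1 h2 hz' hz)
  have hEq : connectedComponentIn Kᶜ p = connectedComponentIn K'ᶜ p :=
    Set.Subset.antisymm hUU' hU'U
  have hcl : closure (connectedComponentIn Kᶜ p) ⊆ connectedComponentIn Kᶜ p := by
    intro z hz
    by_cases hzK : z ∈ K
    · have hzK' : z ∈ K'ᶜ := fun hc => Set.disjoint_left.1 hdisj hzK hc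
      rw [hEq] at hz ⊢
      exact closure_comp_subset hK'cl p ⟨hz, hzK'⟩
    · exact closure_comp_subset hKcl p ⟨hz, hzK⟩
  have hcl2 : IsClosed (connectedComponentIn Kᶜ p) := by
    rw [← closure_eq_iff_isClosed]
    exact Set.Subset.antisymm hcl subset_closure
  have h4 : connectedComponentIn Kᶜ p = univ :=
    IsClopen.eq_univ ⟨hcl2, hKcl.isOpen_compl.connectedComponentIn⟩
      ⟨p, mem_connectedComponentIn hp⟩
  obtain ⟨z, hz⟩ := hKn.nonempty
  have h5 : z ∈ connectedComponentIn Kᶜ p := by rw [h4]; trivial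
  exact connectedComponentIn_subset _ _ h5 hz

end Pool.Agent.Helper89.Env
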