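import Pool.Agent.Helper57.Env.Stmts
import Pool.Agent.Helper57.KC.B1

set_option autoImplicit false

/-!
# MP_07d5fa_co, packet A: unicoherence of the plane and the outer component
-/

namespace Pool.Agent.Helper89.Env

open Set Topology

/-- A continuous logarithm of `1` is constant on a preconnected set. -/
lemma const_of_exp_one {S : Set (ℝ × ℝ)} (hS : IsPreconnected S) {g : ℝ × ℝ → ℂ}
    (hg : ContinuousOn g S) (h : ∀ x ∈ S, Complex.exp (g x) = 1) {x y : ℝ × ℝ} (hx : x ∈ S)
    (hy : y ∈ S) : g x = g y := by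
  have hd : DiscreteTopology (AddSubgroup.zmultiples (2 * Real.pi * Complex.I : ℂ)) :=
    NormedSpace.discreteTopology_zmultiples _
  have hm : Set.MapsTo g S
      (AddSubgroup.zmultiples (2 * Real.pi * Complex.I : ℂ) : Set ℂ) := by
    intro r hr
    obtain ⟨n, hn⟩ := Complex.exp_eq_one_iff.1 (h r hr)
    refine AddSubgroup.mem_zmultiples_iff.2 ⟨n, ?_⟩
    simp only [zsmul_eq_mul]
    rw [hn]
  obtain ⟨c, -, hc⟩ := hS.eqOn_const_of_mapsTo
    (isDiscrete_iff_discreteTopology.mpr hd) hg hm ⟨0, zero_mem _⟩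
  have e0 := hc hx
  have e1 := hc hy
  simp only [Function.const_apply] at e0 e1
  rw [e0, e1]

/-- Unicoherence of the plane for open sets. -/
theorem unicoherent {A B : Set (ℝ × ℝ)} (hA : IsOpen A) (hB : IsOpen B) (hAc : IsPreconnected A)
    (hBc : IsPreconnected B) (hAB : A ∪ B = univ) : IsPreconnected (A ∩ B) := by
  classical
  intro u v hu hv huv hnu hnv
  by_contra hcon
  set P : Set (ℝ × ℝ) := A ∩ B ∩ u with hP
  set Q : Set (ℝ × ℝ) := A ∩ B ∩ v with hQ
  have hPo : IsOpen P := (hA.inter hB).inter hu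
  have hQo : IsOpen Q := (hA.inter hB).inter hv
  have hPQ : Disjoint P Q := by
    rw [Set.disjoint_left]
    rintro x ⟨hx1, hx2⟩ ⟨_, hx3⟩
    exact hcon ⟨x, hx1, hx2, hx3⟩
  have hcov : ∀ x ∈ A ∩ B, x ∈ P ∨ x ∈ Q := by
    intro x hx
    rcases huv hx with h | h
    · exact Or.inl ⟨hx, h⟩
    · exact Or.inr ⟨hx, h⟩
  have hdisj : Disjoint Aᶜ Bᶜ := by
    rw [Set.disjoint_left]
    intro x hx hx'
    have : x ∈ A ∪ B := by rw [hAB]; trivial
    rcases this with h | h
    · exact hx h
    · exact hx' h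
  obtain ⟨h, h0, h1, -⟩ := exists_continuous_zero_one_of_isClosed hA.isClosed_compl
    hB.isClosed_compl hdisj
  -- points of the frontier of `Q`
  have hfr : ∀ x ∈ frontier Q, x ∉ A ∨ x ∉ B := by
    intro x hx
    by_contra hcon2
    push Not at hcon2
    have hxQ : x ∉ Q := by
      rw [frontier, hQo.interior_eq] at hx
      exact hx.2
    have hxP : x ∈ P := (hcov x hcon2).resolve_right hxQ
    have hxc : x ∈ closure Q := frontier_subset_closure hx
    obtain ⟨y, hy1, hy2⟩ := mem_closure_iff.1 hxc P hPo hxP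
    exact Set.disjoint_left.1 hPQ hy1 hy2
  set G : ℝ × ℝ → ℂ := Q.piecewise (fun x => Complex.exp ((h x : ℂ) * (2 * Real.pi * Complex.I)))
    (fun _ => 1) with hG
  have hGc : Continuous G := by
    apply Continuous.piecewise
    · intro x hx
      rcases hfr x hx with hx | hx
      · have : h x = 0 := h0 hx
        simp [this]
      · have : h x = 1 := h1 hx
        rw [this]
        simp [Complex.exp_two_pi_mul_I]
    · fun_prop
    · fun_prop
  have hG0 : ∀ x, G x ≠ 0 := by
    intro x
    by_cases hx : x ∈ Q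
    · rw [hG, Set.piecewise_eq_of_mem _ _ _ hx]; exact Complex.exp_ne_zero _
    · rw [hG, Set.piecewise_eq_of_notMem _ _ _ hx]; exact one_ne_zero
  obtain ⟨L, hL, hLG⟩ := Pool.Agent.Helper69.KC.b1_log G hGc hG0
  -- the two lifts
  set a : ℝ × ℝ → ℂ := fun x => L x -
    (Q.piecewise (fun x => (h x : ℂ)) (fun _ => 1) x) * (2 * Real.pi * Complex.I) with ha
  set b : ℝ × ℝ → ℂ := fun x => L x -
    (Q.piecewise (fun x => (h x : ℂ)) (fun _ => 0) x) * (2 * Real.pi * Complex.I) with hb
  have hac : ContinuousOn a A := by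
    apply ContinuousOn.sub hL.continuousOn
    apply ContinuousOn.mul _ continuousOn_const
    apply ContinuousOn.piecewise
    · rintro x ⟨hxA, hx⟩
      have hxB : x ∉ B := (hfr x hx).resolve_left (fun hc => hc hxA)
      have : h x = 1 := h1 hxB
      simp [this]
    · exact Continuous.continuousOn (by fun_prop)
    · exact continuousOn_const
  have hbc : ContinuousOn b B := by
    apply ContinuousOn.sub hL.continuousOn
    apply ContinuousOn.mul _ continuousOn_const
    apply ContinuousOn.piecewise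
    · rintro x ⟨hxB, hx⟩
      have hxA : x ∉ A := (hfr x hx).resolve_right (fun hc => hc hxB)
      have : h x = 0 := h0 hxA
      simp [this]
    · exact Continuous.continuousOn (by fun_prop)
    · exact continuousOn_const
  have hae : ∀ x, Complex.exp (a x) = 1 := by
    intro x
    rw [ha]
    dsimp only
    rw [Complex.exp_sub, hLG]
    by_cases hx : x ∈ Q
    · rw [hG, Set.piecewise_eq_of_mem _ _ _ hx, Set.piecewise_eq_of_mem _ _ _ hx]
      exact div_self (Complex.exp_ne_zero _)
    · rw [hG, Set.piecewise_eq_of_notMem _ _ _ hx, Set.piecewise_eq_of_notMem _ _ _ hx]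
      rw [one_mul, Complex.exp_two_pi_mul_I, div_one]
  have hbe : ∀ x, Complex.exp (b x) = 1 := by
    intro x
    rw [hb]
    dsimp only
    rw [Complex.exp_sub, hLG]
    by_cases hx : x ∈ Q
    · rw [hG, Set.piecewise_eq_of_mem _ _ _ hx, Set.piecewise_eq_of_mem _ _ _ hx]
      exact div_self (Complex.exp_ne_zero _)
    · rw [hG, Set.piecewise_eq_of_notMem _ _ _ hx, Set.piecewise_eq_of_notMem _ _ _ hx]
      rw [zero_mul, Complex.exp_zero, div_one]
  obtain ⟨p, hpAB, hpu⟩ := hnu
  obtain ⟨q, hqAB, hqv⟩ := hnv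
  have hpP : p ∈ P := ⟨hpAB, hpu⟩
  have hqQ : q ∈ Q := ⟨hqAB, hqv⟩
  have hpQ : p ∉ Q := fun hc => Set.disjoint_left.1 hPQ hpP hc
  have e1 : a p = a q := const_of_exp_one hAc hac (fun x _ => hae x) hpAB.1 hqAB.1
  have e2 : b p = b q := const_of_exp_one hBc hbc (fun x _ => hbe x) hpAB.2 hqAB.2
  rw [ha] at e1
  rw [hb] at e2
  simp only [Set.piecewise_eq_of_mem _ _ _ hqQ, Set.piecewise_eq_of_notMem _ _ _ hpQ] at e1 e2
  have e3 : (2 * Real.pi * Complex.I : ℂ) = 0 := by linear_combination e2 - e1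
  exact Complex.two_pi_I_ne_zero e3

/-- The closure of a component of the complement of a nonempty compact set meets the set. -/
lemma comp_meets {K : Set (ℝ × ℝ)} (hK : IsClosed K) (hKn : K.Nonempty) {y : ℝ × ℝ} (hy : y ∉ K)
    {O : Set (ℝ × ℝ)} (hO : IsOpen O) (hKO : K ⊆ O) :
    (connectedComponentIn Kᶜ y ∩ O).Nonempty := by
  set V := connectedComponentIn Kᶜ y with hV
  have hVo : IsOpen V := hK.isOpen_compl.connectedComponentIn
  have hyV : y ∈ V := mem_connectedComponentIn hy
  have hVc : IsPreconnected V := isPreconnected_connectedComponentIn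
  by_contra hcon
  rw [Set.not_nonempty_iff_eq_empty] at hcon
  have h1 : closure V ⊆ Kᶜ := by
    intro z hz hzK
    obtain ⟨w, hw1, hw2⟩ := mem_closure_iff.1 hz O hO (hKO hzK)
    have : w ∈ V ∩ O := ⟨hw2, hw1⟩
    rw [hcon] at this
    exact this
  have h2 : closure V ⊆ V :=
    hVc.closure.subset_connectedComponentIn (subset_closure hyV) h1
  have h3 : IsClosed V := by
    rw [← closure_eq_iff_isClosed]
    exact Set.Subset.antisymm h2 subset_closure
  have h4 : V = univ := IsClopen.eq_univ ⟨h3, hVo⟩ ⟨y, hyV⟩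
  obtain ⟨z, hz⟩ := hKn
  have h5 : z ∈ V := by rw [h4]; trivial
  exact connectedComponentIn_subset _ _ h5 hz

theorem stmtOuter : Pool.Agent.Helper57.Env.StmtOuter := by
  classical
  intro ι T f hf hT K W p hKc hKconn hWo hKW hW hp
  have hKcl : IsClosed K := hKc.isClosed
  obtain ⟨x0, hx0⟩ := hKconn.nonempty
  set U := connectedComponentIn Kᶜ p with hU
  have hUo : IsOpen U := hKcl.isOpen_compl.connectedComponentIn
  have hUc : IsPreconnected U := isPreconnected_connectedComponentIn
  have hUK : U ⊆ Kᶜ := connectedComponentIn_subset _ _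
  set WK := connectedComponentIn W x0 with hWK
  have hWKo : IsOpen WK := hWo.connectedComponentIn
  have hWKc : IsPreconnected WK := isPreconnected_connectedComponentIn
  have hKWK : K ⊆ WK := hKconn.isPreconnected.subset_connectedComponentIn hx0 hKW
  have hWKW : WK ⊆ W := connectedComponentIn_subset _ _
  -- the other components
  have hV : ∀ y, y ∉ U → y ∉ K → connectedComponentIn Kᶜ y ⊆ Uᶜ := by
    intro y hyU hyK z hz hzU
    apply hyU
    have h1 : connectedComponentIn Kᶜ y = connectedComponentIn Kᶜ z := connectedComponentIn_eq hz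
    have h2 : connectedComponentIn Kᶜ p = connectedComponentIn Kᶜ z := connectedComponentIn_eq hzU
    rw [hU, h2, ← h1]
    exact mem_connectedComponentIn hyK
  set B : Set (ℝ × ℝ) := WK ∪ Uᶜ with hB
  have hBo : IsOpen B := by
    rw [isOpen_iff_mem_nhds]
    intro y hy
    by_cases hyW : y ∈ WK
    · exact Filter.mem_of_superset (hWKo.mem_nhds hyW) Set.subset_union_left
    · have hyU : y ∉ U := by
        rcases hy with h | h
        · exact absurd h hyW
        · exact h
      have hyK : y ∉ K := fun hc => hyW (hKWK hc)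
      have h1 : IsOpen (connectedComponentIn Kᶜ y) := hKcl.isOpen_compl.connectedComponentIn
      exact Filter.mem_of_superset (h1.mem_nhds (mem_connectedComponentIn hyK))
        ((hV y hyU hyK).trans Set.subset_union_right)
  have hBc : IsPreconnected B := by
    apply isPreconnected_of_forall x0
    intro y hy
    by_cases hyW : y ∈ WK
    · exact ⟨WK, Set.subset_union_left, hKWK hx0, hyW, hWKc⟩
    · have hyU : y ∉ U := by
        rcases hy with h | h
        · exact absurd h hyW
        · exact h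
      have hyK : y ∉ K := fun hc => hyW (hKWK hc)
      obtain ⟨z, hz1, hz2⟩ := comp_meets hKcl ⟨x0, hx0⟩ hyK hWKo hKWK
      refine ⟨WK ∪ connectedComponentIn Kᶜ y, ?_, Or.inl (hKWK hx0),
        Or.inr (mem_connectedComponentIn hyK), ?_⟩
      · exact Set.union_subset_union_right _ (hV y hyU hyK)
      · exact IsPreconnected.union z hz2 hz1 hWKc isPreconnected_connectedComponentIn
  have hUB : U ∪ B = univ := by
    ext z
    simp only [hB, Set.mem_union, Set.mem_compl_iff, Set.mem_univ, iff_true]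
    tauto
  have hN : IsPreconnected (U ∩ B) := unicoherent hUo hBo hUc hBc hUB
  have hNsub : ∀ x ∈ U ∩ B, x ∈ W ∧ x ∉ K := by
    rintro x ⟨hxU, hxB⟩
    refine ⟨?_, hUK hxU⟩
    rcases hxB with h | h
    · exact hWKW h
    · exact absurd hxU h
  have hNne : (U ∩ B).Nonempty := by
    obtain ⟨z, hz1, hz2⟩ := comp_meets hKcl ⟨x0, hx0⟩ hp hWKo hKWK
    exact ⟨z, hz1, Or.inl hz2⟩
  -- the sets on which `f a` is the strict maximum
  set O : ι → Set (ℝ × ℝ) := fun a => ⋂ b ∈ T.erase a, {x | f b x < f a x} with hO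
  have hOo : ∀ a, IsOpen (O a) := by
    intro a
    apply isOpen_biInter_finset
    intro b _
    exact isOpen_lt (hf b) (hf a)
  have hOmem : ∀ a x, x ∈ O a ↔ ∀ b ∈ T, b ≠ a → f b x < f a x := by
    intro a x
    simp only [hO, Set.mem_iInter, Finset.mem_erase, Set.mem_ofPred_eq]
    constructor
    · intro h b hb hba
      exact h b ⟨hba, hb⟩
    · rintro h b ⟨hba, hb⟩
      exact h b hb hba
  have hcov : ∀ x ∈ U ∩ B, ∃ a ∈ T, x ∈ O a := by
    intro x hx
    obtain ⟨a, haT, ha⟩ := Finset.exists_max_image T (fun c => f c x) hT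
    refine ⟨a, haT, ?_⟩
    rw [hOmem]
    intro b hb hba
    apply lt_of_le_of_ne (ha b hb)
    intro heq
    exact (hNsub x hx).2 (hW x (hNsub x hx).1 a haT b hb (Ne.symm hba) heq.symm
      (fun c hc => ha c hc))
  obtain ⟨x1, hx1⟩ := hNne
  obtain ⟨a, haT, hxa⟩ := hcov x1 hx1
  have hNa : U ∩ B ⊆ O a := by
    apply IsPreconnected.subset_left_of_subset_union (hOo a)
      (isOpen_biUnion (s := {b | b ∈ T ∧ b ≠ a}) (fun b _ => hOo b)) _ _ ⟨x1, hx1, hxa⟩ hN
    · rw [Set.disjoint_left]
      intro x hx hx'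
      rw [Set.mem_iUnion₂] at hx'
      obtain ⟨b, ⟨hbT, hba⟩, hxb⟩ := hx'
      have h1 := (hOmem a x).1 hx b hbT hba
      have h2 := (hOmem b x).1 hxb a haT (Ne.symm hba)
      exact lt_asymm h1 h2
    · intro x hx
      obtain ⟨b, hbT, hxb⟩ := hcov x hx
      by_cases hba : b = a
      · left; rw [← hba]; exact hxb
      · right
        rw [Set.mem_iUnion₂]
        exact ⟨b, ⟨hbT, hba⟩, hxb⟩
  refine ⟨a, haT, fun b hbT hba Γ hΓ hΓf hΓK => ?_⟩
  rw [Set.disjoint_left]
  intro z hz hzU
  obtain ⟨w, hwΓ, hwK⟩ := hΓK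
  have hwB : w ∈ B := Or.inl (hKWK hwK)
  obtain ⟨y, hyΓ, hyN⟩ := hΓ U B hUo hBo (by rw [hUB]; exact Set.subset_univ _)
    ⟨z, hz, hzU⟩ ⟨w, hwΓ, hwB⟩
  have h1 := (hOmem a y).1 (hNa hyN) b hbT hba
  have h2 := hΓf y hyΓ
  exact absurd h2 (ne_of_gt h1)

end Pool.Agent.Helper89.Env
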