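import Pool.Agent.Helper57.Env.Stmts

set_option autoImplicit false

/-!
# MP_07d5fa_co, packet G: sampling with conflict sets
-/

namespace Pool.Agent.Helper89.Env

open Set

theorem stmtSample : Pool.Agent.Helper57.Env.StmtSample := by
  classical
  intro ι Z _ O T L R k B hO hTL hB
  set Of : Finset Z := hO.toFinset with hOf
  have hmem : ∀ z, z ∈ Of ↔ z ∈ O := fun z => hO.mem_toFinset
  have hcard : O.ncard = Of.card := Set.ncard_eq_toFinset_card O hO
  -- the double count
  have h1 : ∑ R' ∈ R.powerset, (Of.filter (fun z => T z ⊆ R' ∧ Disjoint R' (L z))).card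
      ≤ 2 ^ R.card * (B * R.card ^ 2) := by
    calc ∑ R' ∈ R.powerset, (Of.filter (fun z => T z ⊆ R' ∧ Disjoint R' (L z))).card
        ≤ ∑ _R' ∈ R.powerset, B * R.card ^ 2 := by
          apply Finset.sum_le_sum
          intro R' hR'
          rw [Finset.mem_powerset] at hR'
          have h2 := hB R' hR'
          have h3 : {z | z ∈ O ∧ T z ⊆ R' ∧ Disjoint R' (L z)} =
              ((Of.filter (fun z => T z ⊆ R' ∧ Disjoint R' (L z)) : Finset Z) : Set Z) := by
            ext z
            simp only [Set.mem_ofPred_eq, Finset.coe_filter, hmem]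
          rw [h3, Set.ncard_coe_finset] at h2
          refine h2.trans (Nat.mul_le_mul_left _ (Nat.pow_le_pow_left (Finset.card_le_card hR') 2))
      _ = 2 ^ R.card * (B * R.card ^ 2) := by
          rw [Finset.sum_const, Finset.card_powerset, smul_eq_mul]
  have h2 : ∑ R' ∈ R.powerset, (Of.filter (fun z => T z ⊆ R' ∧ Disjoint R' (L z))).card =
      ∑ z ∈ Of, (R.powerset.filter (fun R' => T z ⊆ R' ∧ Disjoint R' (L z))).card := by
    exact Finset.sum_card_bipartiteAbove_eq_sum_card_bipartiteBelow
      (fun (R' : Finset ι) (z : Z) => T z ⊆ R' ∧ Disjoint R' (L z))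
  have h3 : ∀ z ∈ Of, 2 ^ R.card ≤
      (R.powerset.filter (fun R' => T z ⊆ R' ∧ Disjoint R' (L z))).card * 2 ^ (k + 3) := by
    intro z hz
    obtain ⟨hT, hT3, hL, hTLd, hLk⟩ := hTL z ((hmem z).1 hz)
    have hsub : ((R \ T z) \ L z).powerset.image (fun S => T z ∪ S) ⊆
        R.powerset.filter (fun R' => T z ⊆ R' ∧ Disjoint R' (L z)) := by
      intro R' hR'
      rw [Finset.mem_image] at hR'
      obtain ⟨S, hS, rfl⟩ := hR'
      rw [Finset.mem_powerset] at hS
      rw [Finset.mem_filter, Finset.mem_powerset]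
      refine ⟨Finset.union_subset hT (hS.trans (Finset.sdiff_subset.trans Finset.sdiff_subset)),
        Finset.subset_union_left, ?_⟩
      rw [Finset.disjoint_union_left]
      refine ⟨hTLd, ?_⟩
      rw [Finset.disjoint_left]
      intro x hx hxL
      exact (Finset.mem_sdiff.1 (hS hx)).2 hxL
    have hinj : Set.InjOn (fun S => T z ∪ S) (((R \ T z) \ L z).powerset : Set (Finset ι)) := by
      intro S hS S' hS' hSS
      have hS1 := Finset.mem_powerset.1 (Finset.mem_coe.1 hS)
      have hS2 := Finset.mem_powerset.1 (Finset.mem_coe.1 hS')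
      have key : ∀ S : Finset ι, S ⊆ (R \ T z) \ L z → (T z ∪ S) \ T z = S := by
        intro S hS
        ext x
        rw [Finset.mem_sdiff, Finset.mem_union]
        constructor
        · rintro ⟨h | h, h'⟩
          · exact absurd h h'
          · exact h
        · intro h
          have := hS h
          rw [Finset.mem_sdiff, Finset.mem_sdiff] at this
          exact ⟨Or.inr h, this.1.2⟩
      dsimp only at hSS
      rw [← key S hS1, ← key S' hS2, hSS]
    have h4 := Finset.card_le_card hsub
    rw [Finset.card_image_of_injOn hinj, Finset.card_powerset] at h4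
    have h5 : (R \ T z).card + 3 = R.card := by
      have := Finset.card_sdiff_add_card_eq_card hT
      omega
    have h6 : L z ⊆ R \ T z := by
      intro x hx
      rw [Finset.mem_sdiff]
      exact ⟨hL hx, fun hc => Finset.disjoint_left.1 hTLd hc hx⟩
    have h7 := Finset.card_sdiff_add_card_eq_card h6
    calc 2 ^ R.card = 2 ^ ((R \ T z) \ L z).card * 2 ^ ((L z).card + 3) := by
          rw [← pow_add]; congr 1; omega
      _ ≤ (R.powerset.filter (fun R' => T z ⊆ R' ∧ Disjoint R' (L z))).card * 2 ^ (k + 3) :=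
          Nat.mul_le_mul h4 (Nat.pow_le_pow_right (by norm_num) (by omega))
  have h4 : Of.card * 2 ^ R.card ≤ (2 ^ (k + 3) * B * R.card ^ 2) * 2 ^ R.card := by
    calc Of.card * 2 ^ R.card = ∑ _z ∈ Of, 2 ^ R.card := by
          rw [Finset.sum_const, smul_eq_mul]
      _ ≤ ∑ z ∈ Of, (R.powerset.filter (fun R' => T z ⊆ R' ∧ Disjoint R' (L z))).card *
            2 ^ (k + 3) := Finset.sum_le_sum h3
      _ = (∑ R' ∈ R.powerset, (Of.filter (fun z => T z ⊆ R' ∧ Disjoint R' (L z))).card) *
            2 ^ (k + 3) := by rw [h2, Finset.sum_mul]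
      _ ≤ (2 ^ R.card * (B * R.card ^ 2)) * 2 ^ (k + 3) := Nat.mul_le_mul_right _ h1
      _ = (2 ^ (k + 3) * B * R.card ^ 2) * 2 ^ R.card := by ring
  rw [hcard]
  exact Nat.le_of_mul_le_mul_right h4 (by positivity)

end Pool.Agent.Helper89.Env
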